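import Mathlib

/-!
# Convex geometries: definitions and structure (helper file for MP_0c861e)
-/

namespace Pool.Agent.R129.CG

/-- A convex geometry on `X`. -/
structure IsCG {X : Type} (G : Set (Set X)) : Prop where
  empty : ∅ ∈ G
  inter : ∀ F ∈ G, ∀ F' ∈ G, F ∩ F' ∈ G
  ext : ∀ F ∈ G, F ≠ Set.univ → ∃ x, x ∉ F ∧ insert x F ∈ G

/-- The least member of `G` containing `A`. -/
def conv {X : Type} (G : Set (Set X)) (A : Set X) : Set X := ⋂₀ {F | F ∈ G ∧ A ⊆ F}

/-- The extreme points of `A`. -/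
def ex {X : Type} (G : Set (Set X)) (A : Set X) : Set X := {a | a ∈ A ∧ a ∉ conv G (A \ {a})}

/-- The resolution with base `GX` and fibers `GY x`. -/
def resolution {X : Type} {Y : X → Type} (GX : Set (Set X)) (GY : ∀ x, Set (Set (Y x))) :
    Set (Set (Σ x, Y x)) :=
  {D | Sigma.fst '' D ∈ GX ∧
    (∀ x ∈ Sigma.fst '' D, {y | (⟨x, y⟩ : Σ x, Y x) ∈ D} ∈ GY x) ∧
    ∀ x ∈ Sigma.fst '' D, x ∉ ex GX (Sigma.fst '' D) → ∀ y, (⟨x, y⟩ : Σ x, Y x) ∈ D}

/-- Isomorphism of set families. -/
def Iso {X Z : Type} (G : Set (Set X)) (H : Set (Set Z)) : Prop :=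
  ∃ e : X ≃ Z, ∀ D : Set X, D ∈ G ↔ e '' D ∈ H

/-- A convex geometry is primitive if it is not isomorphic to a resolution of smaller convex
geometries. -/
def Primitive {Z : Type} (G : Set (Set Z)) : Prop :=
  ¬ ∃ (X : Type) (Y : X → Type) (GX : Set (Set X)) (GY : ∀ x, Set (Set (Y x))),
    Finite X ∧ (∀ x, Finite (Y x)) ∧ (∀ x, Nonempty (Y x)) ∧ IsCG GX ∧ (∀ x, IsCG (GY x)) ∧
      2 ≤ Nat.card X ∧ (∃ x, 2 ≤ Nat.card (Y x)) ∧ Iso G (resolution GX GY)

section basic

variable {X : Type} [Finite X] {G : Set (Set X)}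

lemma univ_mem (hG : IsCG G) : Set.univ ∈ G := by
  have key : ∀ k : ℕ, ∀ F ∈ G, Fᶜ.ncard = k → Set.univ ∈ G := by
    intro k
    induction k with
    | zero =>
      intro F hF hk
      rw [Set.ncard_eq_zero, Set.compl_empty_iff] at hk
      exact hk ▸ hF
    | succ k ih =>
      intro F hF hk
      have hne : F ≠ Set.univ := by
        rintro rfl
        simp at hk
      obtain ⟨x, hx, hxF⟩ := hG.ext F hF hne
      apply ih _ hxF
      have h1 : Fᶜ = insert x (insert x F)ᶜ := by
        ext z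
        by_cases hz : z = x
        · subst hz; simp [hx]
        · simp [hz]
      have h2 : x ∉ (insert x F)ᶜ := by simp
      rw [h1, Set.ncard_insert_of_notMem h2] at hk
      omega
  exact key _ ∅ hG.empty rfl

lemma sInter_mem (hG : IsCG G) (S : Set (Set X)) (hS : S ⊆ G) : ⋂₀ S ∈ G := by
  have hfin : S.Finite := Set.toFinite S
  induction S, hfin using Set.Finite.induction_on with
  | empty => rw [Set.sInter_empty]; exact univ_mem hG
  | insert _ _ ih =>
    rw [Set.sInter_insert]
    exact hG.inter _ (hS (Set.mem_insert _ _)) _ (ih (fun F hF => hS (Set.mem_insert_of_mem _ hF)))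

lemma conv_mem (hG : IsCG G) (A : Set X) : conv G A ∈ G := sInter_mem hG _ (fun _ h => h.1)

omit [Finite X] in
lemma subset_conv (A : Set X) : A ⊆ conv G A := fun _ ha _ hF => hF.2 ha

omit [Finite X] in
lemma conv_subset {A F : Set X} (hF : F ∈ G) (h : A ⊆ F) : conv G A ⊆ F := fun _ ha => ha F ⟨hF, h⟩

omit [Finite X] in
lemma conv_mono {A B : Set X} (h : A ⊆ B) : conv G A ⊆ conv G B :=
  fun _ ha F hF => ha F ⟨hF.1, h.trans hF.2⟩

lemma diff_mem_iff (hG : IsCG G) {K : Set X} (hK : K ∈ G) {x : X} (hx : x ∈ K) :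
    K \ {x} ∈ G ↔ x ∈ ex G K := by
  constructor
  · intro h
    exact ⟨hx, fun h1 => (conv_subset h le_rfl h1).2 rfl⟩
  · intro h
    have h1 : conv G (K \ {x}) = K \ {x} := by
      apply Set.Subset.antisymm _ (subset_conv _)
      intro z hz
      refine ⟨conv_subset hK Set.sdiff_subset hz, ?_⟩
      rintro rfl
      exact h.2 hz
    rw [← h1]
    exact conv_mem hG _

end basic

/-- `S` behaves like a fiber of a resolution. -/
def IsModule {Z : Type} (G : Set (Set Z)) (S : Set Z) : Prop :=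
  ∀ D : Set Z, (D ∩ S).Nonempty →
    (D ∈ G ↔ (D ∪ S ∈ G ∧ (∃ D' ∈ G, D' ∩ S = D ∩ S) ∧ (D \ S ∈ G ∨ S ⊆ D)))

section resol

variable {X : Type} {Y : X → Type} [Finite X] [∀ x, Finite (Y x)]
  {GX : Set (Set X)} {GY : ∀ x, Set (Set (Y x))}

lemma module_resolution (hX : IsCG GX) (hY : ∀ x, IsCG (GY x)) (x0 : X) :
    IsModule (resolution GX GY) {z | z.1 = x0} := by
  intro D hD
  obtain ⟨z0, hz0, hz0'⟩ := hD
  have hx0 : x0 ∈ Sigma.fst '' D := ⟨z0, hz0, hz0'⟩
  set S : Set (Σ x, Y x) := {z | z.1 = x0} with hS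
  have e1 : Sigma.fst '' (D ∪ S) = Sigma.fst '' D := by
    rw [Set.image_union]
    apply Set.union_eq_left.2
    rintro _ ⟨z, hz, rfl⟩
    rw [show z.1 = x0 from hz]
    exact hx0
  have e2 : Sigma.fst '' (D \ S) = Sigma.fst '' D \ {x0} := by
    ext x
    constructor
    · rintro ⟨z, ⟨h1, h2⟩, rfl⟩
      exact ⟨⟨z, h1, rfl⟩, fun h => h2 h⟩
    · rintro ⟨⟨z, h1, rfl⟩, h2⟩
      exact ⟨z, ⟨h1, fun h => h2 h⟩, rfl⟩
  constructor
  · intro hmem
    obtain ⟨h1, h2, h3⟩ := hmem
    refine ⟨⟨?_, ?_, ?_⟩, ⟨D, ⟨h1, h2, h3⟩, rfl⟩, ?_⟩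
    · rw [e1]; exact h1
    · rw [e1]
      intro x hx
      by_cases hxx : x = x0
      · subst hxx
        have : {y | (⟨x, y⟩ : Σ x, Y x) ∈ D ∪ S} = Set.univ := by
          ext y
          simp [hS]
        rw [this]
        exact univ_mem (hY x)
      · have : {y | (⟨x, y⟩ : Σ x, Y x) ∈ D ∪ S} = {y | (⟨x, y⟩ : Σ x, Y x) ∈ D} := by
          ext y
          simp [hS, hxx]
        rw [this]
        exact h2 x hx
    · rw [e1]
      intro x hx hex y
      exact Or.inl (h3 x hx hex y)
    · by_cases hex : x0 ∈ ex GX (Sigma.fst '' D)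
      · left
        refine ⟨?_, ?_, ?_⟩
        · rw [e2]
          exact (diff_mem_iff hX h1 hx0).2 hex
        · rw [e2]
          intro x hx
          have : {y | (⟨x, y⟩ : Σ x, Y x) ∈ D \ S} = {y | (⟨x, y⟩ : Σ x, Y x) ∈ D} := by
            ext y
            have hxx : x ≠ x0 := hx.2
            simp [hS, hxx]
          rw [this]
          exact h2 x hx.1
        · rw [e2]
          intro x hx hex' y
          have hxx : x ≠ x0 := hx.2
          refine ⟨h3 x hx.1 ?_ y, hxx⟩
          intro hx'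
          apply hex'
          refine ⟨hx, fun hc => hx'.2 (conv_mono ?_ hc)⟩
          intro z hz
          exact ⟨hz.1.1, hz.2⟩
      · right
        rintro ⟨x, y⟩ hz
        have hz' : x = x0 := hz
        subst hz'
        exact h3 x hx0 hex y
  · rintro ⟨⟨a1, a2, a3⟩, ⟨D', ⟨b1, b2, b3⟩, b4⟩, c⟩
    rw [e1] at a1 a2 a3
    refine ⟨a1, ?_, ?_⟩
    · intro x hx
      by_cases hxx : x = x0
      · subst hxx
        have h1 : {y | (⟨x, y⟩ : Σ x, Y x) ∈ D} = {y | (⟨x, y⟩ : Σ x, Y x) ∈ D'} := by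
          ext y
          have h2 : (⟨x, y⟩ : Σ x, Y x) ∈ D' ∩ S ↔ (⟨x, y⟩ : Σ x, Y x) ∈ D ∩ S := by rw [b4]
          have h3 : (⟨x, y⟩ : Σ x, Y x) ∈ S := rfl
          constructor
          · intro h
            exact (h2.2 ⟨h, h3⟩).1
          · intro h
            exact (h2.1 ⟨h, h3⟩).1
        rw [h1]
        apply b2
        have h2 : z0 ∈ D' ∩ S := by
          rw [b4]
          exact ⟨hz0, hz0'⟩
        exact ⟨z0, h2.1, hz0'⟩
      · have : {y | (⟨x, y⟩ : Σ x, Y x) ∈ D ∪ S} = {y | (⟨x, y⟩ : Σ x, Y x) ∈ D} := by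
          ext y
          simp [hS, hxx]
        rw [← this]
        exact a2 x hx
    · intro x hx hex y
      by_cases hxx : x = x0
      · subst hxx
        rcases c with c | c
        · exfalso
          apply hex
          rw [← diff_mem_iff hX a1 hx, ← e2]
          exact c.1
        · exact c rfl
      · rcases a3 x hx hex y with h | h
        · exact h
        · exact absurd h hxx

end resol

section transfer

variable {Z W : Type}

lemma module_iso {G : Set (Set Z)} {H : Set (Set W)} (e : Z ≃ W)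
    (he : ∀ D : Set Z, D ∈ G ↔ e '' D ∈ H) {S : Set W} (hS : IsModule H S) :
    IsModule G (e ⁻¹' S) := by
  intro D hD
  have h0 : e '' (e ⁻¹' S) = S := e.image_preimage S
  have h1 : (e '' D ∩ S).Nonempty := by
    obtain ⟨z, hz, hz'⟩ := hD
    exact ⟨e z, ⟨z, hz, rfl⟩, hz'⟩
  rw [he, hS _ h1, he, he, Set.image_union, Set.image_sdiff e.injective, h0]
  have h2 : (∃ D' ∈ H, D' ∩ S = e '' D ∩ S) ↔ (∃ D' ∈ G, D' ∩ e ⁻¹' S = D ∩ e ⁻¹' S) := by
    constructor
    · rintro ⟨D', hD', h⟩
      refine ⟨e ⁻¹' D', ?_, ?_⟩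
      · rw [he, e.image_preimage]
        exact hD'
      · rw [← Set.preimage_inter, h, Set.preimage_inter, e.preimage_image]
    · rintro ⟨D', hD', h⟩
      refine ⟨e '' D', (he _).1 hD', ?_⟩
      have := congrArg (fun A => e '' A) h
      simp only [Set.image_inter e.injective, h0] at this
      exact this
  have h3 : S ⊆ e '' D ↔ e ⁻¹' S ⊆ D := by
    rw [← Set.image_subset_image_iff e.injective (s := e ⁻¹' S), h0]
  rw [h2, h3]

/-- A nonprimitive geometry has a module of intermediate size. -/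
lemma exists_module [Finite Z] {G : Set (Set Z)} (hG : ¬ Primitive G) :
    ∃ S : Set Z, 2 ≤ S.ncard ∧ S ≠ Set.univ ∧ IsModule G S := by
  unfold Primitive at hG
  rw [not_not] at hG
  obtain ⟨X, Y, GX, GY, fX, fY, nY, hX, hY, h2, ⟨x0, hx0⟩, e, he⟩ := hG
  refine ⟨e ⁻¹' {z | z.1 = x0}, ?_, ?_, module_iso e he (module_resolution hX hY x0)⟩
  · rw [← Nat.card_coe_set_eq]
    have : (Y x0) ≃ (e ⁻¹' {z : Σ x, Y x | z.1 = x0} : Set Z) :=
      { toFun := fun y => ⟨e.symm ⟨x0, y⟩, by simp⟩
        invFun := fun z => (show (e z.1).1 = x0 from z.2) ▸ (e z.1).2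
        left_inv := by
          intro y
          simp
          have : ∀ (z : Σ x, Y x) (h : z.1 = x0) (h' : z = ⟨x0, y⟩), h ▸ z.2 = y := by
            rintro z h rfl
            rfl
          exact this _ _ (by simp)
        right_inv := by
          rintro ⟨z, hz⟩
          apply Subtype.ext
          simp only
          rw [Equiv.symm_apply_eq]
          have : ∀ (w : Σ x, Y x) (h : w.1 = x0), (⟨x0, h ▸ w.2⟩ : Σ x, Y x) = w := by
            rintro ⟨a, b⟩ rfl
            rfl
          exact this _ _ }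
    rw [← Nat.card_congr this]
    exact hx0
  · intro h
    have hc : ∃ x1 : X, x1 ≠ x0 := by
      by_contra hno
      push Not at hno
      have : Subsingleton X := ⟨fun a b => (hno a).trans (hno b).symm⟩
      have h1 := Finite.card_le_one_iff_subsingleton.2 this
      omega
    obtain ⟨x1, hx1⟩ := hc
    obtain ⟨y⟩ := nY x1
    have h1 : e.symm ⟨x1, y⟩ ∈ (e ⁻¹' {z : Σ x, Y x | z.1 = x0} : Set Z) := by
      rw [h]; trivial
    simp at h1
    exact hx1 h1

end transfer

/-- The trace of a family on a subset. -/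
def trace {Z : Type} (G : Set (Set Z)) (A : Set Z) : Set (Set A) :=
  {E | ∃ D ∈ G, E = Subtype.val ⁻¹' D}

section trace

variable {Z : Type} [Finite Z] {G H : Set (Set Z)}

lemma trace_cg (hG : IsCG G) (A : Set Z) : IsCG (trace G A) where
  empty := ⟨∅, hG.empty, by simp⟩
  inter := by
    rintro _ ⟨D, hD, rfl⟩ _ ⟨D', hD', rfl⟩
    exact ⟨D ∩ D', hG.inter D hD D' hD', rfl⟩
  ext := by
    have key : ∀ k : ℕ, ∀ D ∈ G, Dᶜ.ncard = k → (Subtype.val ⁻¹' D : Set A) ≠ Set.univ →
        ∃ x : A, x ∉ (Subtype.val ⁻¹' D : Set A) ∧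
          insert x (Subtype.val ⁻¹' D : Set A) ∈ trace G A := by
      intro k
      induction k with
      | zero =>
        intro D hD hk hne
        rw [Set.ncard_eq_zero, Set.compl_empty_iff] at hk
        subst hk
        exact absurd Set.preimage_univ hne
      | succ k ih =>
        intro D hD hk hne
        have hneD : D ≠ Set.univ := by
          rintro rfl
          exact hne Set.preimage_univ
        obtain ⟨x, hx, hxD⟩ := hG.ext D hD hneD
        by_cases hxA : x ∈ A
        · refine ⟨⟨x, hxA⟩, hx, insert x D, hxD, ?_⟩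
          ext z
          simp [Subtype.ext_iff]
        · have h1 : Dᶜ = insert x (insert x D)ᶜ := by
            ext z
            by_cases hz : z = x
            · subst hz; simp [hx]
            · simp [hz]
          have h2 : x ∉ (insert x D)ᶜ := by simp
          rw [h1, Set.ncard_insert_of_notMem h2] at hk
          have h3 : (Subtype.val ⁻¹' (insert x D) : Set A) = Subtype.val ⁻¹' D := by
            ext z
            have : (z : Z) ≠ x := fun h => hxA (h ▸ z.2)
            simp [this]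
          have := ih (insert x D) hxD (by omega) (by rw [h3]; exact hne)
          rw [h3] at this
          exact this
    rintro _ ⟨D, hD, rfl⟩ hne
    exact key _ D hD rfl hne

omit [Finite Z] in
lemma trace_eq_iff {A : Set Z} (h : trace G A = trace H A) (E : Set Z) :
    (∃ D ∈ G, D ∩ A = E ∩ A) ↔ (∃ D ∈ H, D ∩ A = E ∩ A) := by
  have key : ∀ K : Set (Set Z), (Subtype.val ⁻¹' E : Set A) ∈ trace K A ↔
      ∃ D ∈ K, D ∩ A = E ∩ A := by
    intro K
    constructor
    · rintro ⟨D, hD, h⟩
      refine ⟨D, hD, ?_⟩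
      rw [Set.inter_comm D, Set.inter_comm E]
      exact ((Subtype.preimage_val_eq_preimage_val_iff A E D).1 h).symm
    · rintro ⟨D, hD, h⟩
      refine ⟨D, hD, ?_⟩
      rw [Subtype.preimage_val_eq_preimage_val_iff, Set.inter_comm A, Set.inter_comm A]
      exact h.symm
  rw [← key, ← key, h]

omit [Finite Z] in
/-- Members disjoint from the module. -/
lemma mem_disj {S : Set Z} (hM : IsModule G S) {y0 : Z} (hy : y0 ∈ S) {E : Set Z}
    (hE : Disjoint E S) : E ∈ G ↔ ∃ D ∈ G, D ∩ insert y0 Sᶜ = E ∩ insert y0 Sᶜ := by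
  constructor
  · intro h
    exact ⟨E, h, rfl⟩
  · rintro ⟨D, hD, h⟩
    have hy0E : y0 ∉ E := fun h1 => Set.disjoint_left.1 hE h1 hy
    have hy0D : y0 ∉ D := by
      intro h1
      have : y0 ∈ E ∩ insert y0 Sᶜ := by rw [← h]; exact ⟨h1, Set.mem_insert _ _⟩
      exact hy0E this.1
    have hDS : D \ S = E := by
      ext z
      constructor
      · rintro ⟨h1, h2⟩
        have : z ∈ E ∩ insert y0 Sᶜ := by rw [← h]; exact ⟨h1, Set.mem_insert_of_mem _ h2⟩
        exact this.1
      · intro h1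
        have h2 : z ∉ S := Set.disjoint_left.1 hE h1
        have : z ∈ D ∩ insert y0 Sᶜ := by rw [h]; exact ⟨h1, Set.mem_insert_of_mem _ h2⟩
        exact ⟨this.1, h2⟩
    by_cases hne : (D ∩ S).Nonempty
    · rcases ((hM D hne).1 hD).2.2 with h1 | h1
      · rw [← hDS]; exact h1
      · exact absurd (h1 hy) hy0D
    · rw [Set.not_nonempty_iff_eq_empty] at hne
      have : D = E := by
        rw [← hDS]
        symm
        rw [sdiff_eq_left, Set.disjoint_iff_inter_eq_empty]
        exact hne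
      rw [← this]
      exact hD

omit [Finite Z] in
/-- Members containing the module. -/
lemma mem_full {S : Set Z} (hM : IsModule G S) {y0 : Z} (hy : y0 ∈ S) {E : Set Z} :
    E ∪ S ∈ G ↔ ∃ D ∈ G, D ∩ insert y0 Sᶜ = (insert y0 E) ∩ insert y0 Sᶜ := by
  constructor
  · intro h
    refine ⟨E ∪ S, h, ?_⟩
    ext z
    constructor
    · rintro ⟨h1, h2⟩
      refine ⟨?_, h2⟩
      rcases h2 with h2 | h2
      · exact Or.inl h2
      · rcases h1 with h1 | h1
        · exact Or.inr h1
        · exact absurd h1 h2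
    · rintro ⟨h1, h2⟩
      refine ⟨?_, h2⟩
      rcases h1 with h1 | h1
      · exact Or.inr (h1 ▸ hy)
      · exact Or.inl h1
  · rintro ⟨D, hD, h⟩
    have hy0D : y0 ∈ D := by
      have : y0 ∈ D ∩ insert y0 Sᶜ := by
        rw [h]; exact ⟨Set.mem_insert _ _, Set.mem_insert _ _⟩
      exact this.1
    have h1 := ((hM D ⟨y0, hy0D, hy⟩).1 hD).1
    have h2 : D ∪ S = E ∪ S := by
      ext z
      by_cases hz : z ∈ S
      · simp [hz]
      · have hzy : z ≠ y0 := fun h => hz (h ▸ hy)
        have h3 : z ∈ D ∩ insert y0 Sᶜ ↔ z ∈ (insert y0 E) ∩ insert y0 Sᶜ := by rw [h]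
        simp only [Set.mem_inter_iff, Set.mem_insert_iff, Set.mem_compl_iff, hzy, hz,
          not_false_eq_true, or_true, and_true, false_or] at h3
        simp [hz, h3]
    rw [← h2]
    exact h1

omit [Finite Z] in
/-- A family with a module is determined by two traces. -/
lemma determined {S : Set Z} (hG : IsModule G S) (hH : IsModule H S) {y0 : Z} (hy : y0 ∈ S)
    (h1 : trace G S = trace H S) (h2 : trace G (insert y0 Sᶜ) = trace H (insert y0 Sᶜ)) :
    G = H := by
  have a1 : ∀ E : Set Z, Disjoint E S → (E ∈ G ↔ E ∈ H) := by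
    intro E hE
    rw [mem_disj hG hy hE, mem_disj hH hy hE]
    exact trace_eq_iff h2 E
  have a2 : ∀ E : Set Z, (E ∪ S ∈ G ↔ E ∪ S ∈ H) := by
    intro E
    rw [mem_full hG hy, mem_full hH hy]
    exact trace_eq_iff h2 _
  ext D
  by_cases hne : (D ∩ S).Nonempty
  · have hd : Disjoint (D \ S) S := Set.disjoint_sdiff_left
    have e : D ∪ S = (D \ S) ∪ S := by simp
    rw [hG D hne, hH D hne, e, a2 _, a1 _ hd, trace_eq_iff h1 D]
  · rw [Set.not_nonempty_iff_eq_empty] at hne
    exact a1 D (Set.disjoint_iff_inter_eq_empty.2 hne)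

end trace

/-! ### Counting -/

/-- The number of convex geometries on `X`. -/
noncomputable def num (X : Type) : ℕ := Nat.card {G : Set (Set X) // IsCG G}

section iso

variable {X Z : Type}

lemma isCG_image (e : X ≃ Z) {G : Set (Set X)} (hG : IsCG G) : IsCG {D | e ⁻¹' D ∈ G} where
  empty := by
    change e ⁻¹' ∅ ∈ G
    rw [Set.preimage_empty]
    exact hG.empty
  inter := fun F hF F' hF' => by
    change e ⁻¹' (F ∩ F') ∈ G
    rw [Set.preimage_inter]
    exact hG.inter _ hF _ hF'
  ext := fun F hF hne => by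
    have hne' : e ⁻¹' F ≠ Set.univ := by
      intro h
      apply hne
      rw [← e.image_preimage F, h, Set.image_univ, e.range_eq_univ]
    obtain ⟨x, hx, hxF⟩ := hG.ext _ hF hne'
    refine ⟨e x, hx, ?_⟩
    change e ⁻¹' (insert (e x) F) ∈ G
    have : e ⁻¹' (insert (e x) F) = insert x (e ⁻¹' F) := by
      ext z
      simp
    rw [this]
    exact hxF

lemma num_congr (e : X ≃ Z) : num X = num Z := by
  unfold num
  refine Nat.card_congr
    { toFun := fun G => ⟨{D | e ⁻¹' D ∈ G.1}, isCG_image e G.2⟩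
      invFun := fun G => ⟨{D | e.symm ⁻¹' D ∈ G.1}, isCG_image e.symm G.2⟩
      left_inv := ?_
      right_inv := ?_ }
  · intro G
    apply Subtype.ext
    ext D
    change e ⁻¹' (e.symm ⁻¹' D) ∈ G.1 ↔ _
    rw [← Set.preimage_comp]
    simp
  · intro G
    apply Subtype.ext
    ext D
    change e.symm ⁻¹' (e ⁻¹' D) ∈ G.1 ↔ _
    rw [← Set.preimage_comp]
    simp

end iso

/-- Geometries with a given module. -/
lemma card_module_le {Z : Type} [Finite Z] (S : Set Z) {y0 : Z} (hy : y0 ∈ S) :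
    {G : Set (Set Z) | IsCG G ∧ IsModule G S}.ncard ≤ num S * num (insert y0 Sᶜ : Set Z) := by
  unfold num
  rw [← Nat.card_prod, ← Nat.card_coe_set_eq]
  refine Nat.card_le_card_of_injective
    (fun G => (⟨trace G.1 S, trace_cg G.2.1 S⟩, ⟨trace G.1 _, trace_cg G.2.1 _⟩)) ?_
  rintro ⟨G, hG, hGm⟩ ⟨H, hH, hHm⟩ h
  simp only [Prod.mk.injEq, Subtype.mk.injEq] at h
  exact Subtype.ext (determined hGm hHm hy h.1 h.2)

/-! ### Many extensions of a geometry by one point -/

section extend

variable {X : Type} [Finite X] {G : Set (Set X)}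

/-- Order ideals of `G`. -/
def IsIdeal (G I : Set (Set X)) : Prop := I ⊆ G ∧ ∀ K ∈ I, ∀ F ∈ G, F ⊆ K → F ∈ I

omit [Finite X] in
lemma ideal_step [Finite X] {I : Set (Set X)} (hI : IsIdeal G I) (hne : I ≠ G) :
    ∃ K, K ∉ I ∧ IsIdeal G (insert K I) := by
  have h1 : (G \ I).Nonempty := by
    by_contra h
    rw [Set.not_nonempty_iff_eq_empty, Set.sdiff_eq_empty] at h
    exact hne (Set.Subset.antisymm hI.1 h)
  obtain ⟨K, hK, hmin⟩ := (Set.toFinite (G \ I)).exists_minimal h1
  refine ⟨K, hK.2, ?_, ?_⟩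
  · rintro F (rfl | hF)
    · exact hK.1
    · exact hI.1 hF
  · rintro K' (rfl | hK') F hF hFK
    · by_cases hFI : F ∈ I
      · exact Or.inr hFI
      · left
        exact Set.Subset.antisymm hFK (hmin ⟨hF, hFI⟩ hFK)
    · exact Or.inr (hI.2 K' hK' F hF hFK)

lemma exists_ideal (hG : IsCG G) (i : ℕ) (h1 : 1 ≤ i) (h2 : i ≤ G.ncard) :
    ∃ I, IsIdeal G I ∧ ∅ ∈ I ∧ I.ncard = i := by
  induction i, h1 using Nat.le_induction with
  | base =>
    refine ⟨{∅}, ⟨?_, ?_⟩, rfl, by simp⟩
    · rintro F rfl; exact hG.empty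
    · rintro K rfl F _ hFK
      exact Set.subset_empty_iff.1 hFK
  | succ i _ ih =>
    obtain ⟨I, hI, h0, hc⟩ := ih (by omega)
    have hne : I ≠ G := by
      rintro rfl
      omega
    obtain ⟨K, hK, hKI⟩ := ideal_step hI hne
    refine ⟨insert K I, hKI, Or.inr h0, ?_⟩
    rw [Set.ncard_insert_of_notMem hK, hc]

/-- A geometry other than the power set can be enlarged by one set. -/
lemma geometry_step (hG : IsCG G) (hne : G ≠ Set.univ) : ∃ K, K ∉ G ∧ IsCG (insert K G) := by
  -- members with a non-extreme point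
  have h1 : {M | M ∈ G ∧ ∃ x ∈ M, M \ {x} ∉ G}.Nonempty := by
    by_contra h
    rw [Set.not_nonempty_iff_eq_empty] at h
    apply hne
    have h2 : ∀ M ∈ G, ∀ x ∈ M, M \ {x} ∈ G := by
      intro M hM x hx
      by_contra h3
      have : M ∈ {M | M ∈ G ∧ ∃ x ∈ M, M \ {x} ∉ G} := ⟨hM, x, hx, h3⟩
      rw [h] at this
      exact this
    have key : ∀ k : ℕ, ∀ K : Set X, Kᶜ.ncard = k → K ∈ G := by
      intro k
      induction k with
      | zero =>
        intro K hk
        rw [Set.ncard_eq_zero, Set.compl_empty_iff] at hk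
        rw [hk]
        exact univ_mem hG
      | succ k ih =>
        intro K hk
        have hne' : (Kᶜ).Nonempty := by
          rw [← Set.ncard_pos]
          omega
        obtain ⟨x, hx⟩ := hne'
        have h3 : Kᶜ = insert x (insert x K)ᶜ := by
          ext z
          by_cases hz : z = x
          · subst hz; simpa using hx
          · simp [hz]
        have h4 : x ∉ (insert x K)ᶜ := by simp
        rw [h3, Set.ncard_insert_of_notMem h4] at hk
        have h5 := h2 _ (ih (insert x K) (by omega)) x (Set.mem_insert _ _)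
        rw [Set.insert_sdiff_self_of_notMem hx] at h5
        exact h5
    exact Set.eq_univ_of_forall (fun K => key _ K rfl)
  obtain ⟨M, ⟨hM, x, hx, hxM⟩, hmin⟩ := (Set.toFinite _).exists_minimal h1
  -- all proper submembers are free
  have free : ∀ F ∈ G, F ⊆ M → F ≠ M → ∀ z ∈ F, F \ {z} ∈ G := by
    intro F hF hFM hne' z hz
    by_contra h
    exact hne' (Set.Subset.antisymm hFM (hmin ⟨hF, z, hz, h⟩ hFM))
  refine ⟨M \ {x}, hxM, ⟨Or.inr hG.empty, ?_, ?_⟩⟩
  · have mixed : ∀ F ∈ G, F ∩ (M \ {x}) ∈ insert (M \ {x}) G := by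
      intro F hF
      have e : F ∩ (M \ {x}) = (F ∩ M) \ {x} := by
        ext z; simp only [Set.mem_inter_iff, Set.mem_sdiff]; tauto
      rw [e]
      by_cases h2 : F ∩ M = M
      · left; rw [h2]
      · right
        have h3 : F ∩ M ∈ G := hG.inter F hF M hM
        by_cases h4 : x ∈ F ∩ M
        · exact free _ h3 Set.inter_subset_right h2 x h4
        · rw [Set.sdiff_singleton_eq_self h4]
          exact h3
    rintro F (rfl | hF) F' (rfl | hF')
    · left; exact Set.inter_self _
    · rw [Set.inter_comm]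
      exact mixed F' hF'
    · exact mixed F hF
    · exact Or.inr (hG.inter F hF F' hF')
  · rintro F (rfl | hF) hne'
    · refine ⟨x, by simp, Or.inr ?_⟩
      rw [Set.insert_sdiff_singleton, Set.insert_eq_of_mem hx]
      exact hM
    · obtain ⟨z, hz, hzF⟩ := hG.ext F hF hne'
      exact ⟨z, hz, Or.inr hzF⟩

lemma exists_superset (hG : IsCG G) (i : ℕ) (h1 : G.ncard ≤ i) (h2 : i ≤ 2 ^ Nat.card X) :
    ∃ H, G ⊆ H ∧ IsCG H ∧ H.ncard = i := by
  induction i, h1 using Nat.le_induction with
  | base => exact ⟨G, le_rfl, hG, rfl⟩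
  | succ i _ ih =>
    obtain ⟨H, hGH, hH, hc⟩ := ih (by omega)
    have hne : H ≠ Set.univ := by
      rintro rfl
      have h3 : Nat.card (Set X) = 2 ^ Nat.card X := by
        classical
        have := Fintype.ofFinite X
        rw [Nat.card_eq_fintype_card, Fintype.card_set, Nat.card_eq_fintype_card]
      rw [Set.ncard_univ, h3] at hc
      omega
    obtain ⟨K, hK, hKH⟩ := geometry_step hH hne
    refine ⟨insert K H, fun F hF => Or.inr (hGH hF), hKH, ?_⟩
    rw [Set.ncard_insert_of_notMem hK, hc]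

/-- The extension of a geometry by a new point `none`. -/
def extFam (G H0 : Set (Set X)) : Set (Set (Option X)) :=
  {D | (none ∈ D ∧ some ⁻¹' D ∈ G) ∨ (none ∉ D ∧ some ⁻¹' D ∈ H0)}

/-- The families of the members without the new point. -/
structure Good (G H0 : Set (Set X)) : Prop where
  empty : ∅ ∈ H0
  inter : ∀ F ∈ H0, ∀ F' ∈ H0, F ∩ F' ∈ H0
  mixed : ∀ F ∈ G, ∀ K ∈ H0, F ∩ K ∈ H0
  ext : ∀ K ∈ H0, K ∈ G ∨ ∃ x, x ∉ K ∧ insert x K ∈ H0

omit [Finite X] in
lemma extFam_cg (hG : IsCG G) {H0 : Set (Set X)} (h : Good G H0) : IsCG (extFam G H0) where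
  empty := Or.inr ⟨by simp, by rw [Set.preimage_empty]; exact h.empty⟩
  inter := by
    rintro F (⟨a1, a2⟩ | ⟨a1, a2⟩) F' (⟨b1, b2⟩ | ⟨b1, b2⟩)
    · left
      refine ⟨⟨a1, b1⟩, ?_⟩
      rw [Set.preimage_inter]
      exact hG.inter _ a2 _ b2
    · right
      refine ⟨fun h => b1 h.2, ?_⟩
      rw [Set.preimage_inter]
      exact h.mixed _ a2 _ b2
    · right
      refine ⟨fun h => a1 h.1, ?_⟩
      rw [Set.preimage_inter, Set.inter_comm]
      exact h.mixed _ b2 _ a2
    · right
      refine ⟨fun h => a1 h.1, ?_⟩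
      rw [Set.preimage_inter]
      exact h.inter _ a2 _ b2
  ext := by
    have ins : ∀ (D : Set (Option X)) (x : X),
        some ⁻¹' (insert (some x) D) = insert x (some ⁻¹' D) := by
      intro D x
      ext z
      simp
    rintro D (⟨a1, a2⟩ | ⟨a1, a2⟩) hne
    · have hne' : some ⁻¹' D ≠ Set.univ := by
        intro h1
        apply hne
        ext z
        rcases z with _ | z
        · simp [a1]
        · have : z ∈ some ⁻¹' D := by rw [h1]; trivial
          simpa using this
      obtain ⟨x, hx, hxD⟩ := hG.ext _ a2 hne'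
      refine ⟨some x, hx, Or.inl ⟨Or.inr a1, ?_⟩⟩
      rw [ins]
      exact hxD
    · rcases h.ext _ a2 with h1 | ⟨x, hx, hxD⟩
      · refine ⟨none, a1, Or.inl ⟨Or.inl rfl, ?_⟩⟩
        have : some ⁻¹' (insert none D) = some ⁻¹' D := by
          ext z
          simp
        rw [this]
        exact h1
      · refine ⟨some x, hx, Or.inr ⟨?_, ?_⟩⟩
        · intro h1
          rcases h1 with h1 | h1
          · simp at h1
          · exact a1 h1
        · rw [ins]
          exact hxD

omit [Finite X] in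
lemma extFam_inj {G' H0 H0' : Set (Set X)} (h : extFam G H0 = extFam G' H0') :
    G = G' ∧ H0 = H0' := by
  constructor
  · ext F
    have h1 : insert none (some '' F) ∈ extFam G H0 ↔ insert none (some '' F) ∈ extFam G' H0' := by
      rw [h]
    have h2 : some ⁻¹' (insert none (some '' F)) = F := by
      ext z
      simp
    unfold extFam at h1
    simp only [Set.mem_ofPred_eq, h2, Set.mem_insert_iff, true_or, true_and, not_true_eq_false,
      false_and, or_false] at h1
    exact h1
  · ext F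
    have h1 : (some '' F) ∈ extFam G H0 ↔ (some '' F) ∈ extFam G' H0' := by
      rw [h]
    have h2 : some ⁻¹' (some '' F) = F := by
      ext z
      simp
    unfold extFam at h1
    have h3 : none ∉ some '' F := by simp
    simp only [Set.mem_ofPred_eq, h2, h3, false_and, false_or, not_false_eq_true, true_and] at h1
    exact h1

lemma exists_good (hG : IsCG G) (i : ℕ) (h1 : 1 ≤ i) (h2 : i ≤ 2 ^ Nat.card X) :
    ∃ H0, Good G H0 ∧ H0.ncard = i := by
  rcases Nat.lt_or_ge i G.ncard with h | h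
  · obtain ⟨I, hI, h0, hc⟩ := exists_ideal hG i h1 h.le
    refine ⟨I, ⟨h0, ?_, ?_, ?_⟩, hc⟩
    · intro F hF F' hF'
      exact hI.2 F hF _ (hG.inter _ (hI.1 hF) _ (hI.1 hF')) Set.inter_subset_left
    · intro F hF K hK
      exact hI.2 K hK _ (hG.inter _ hF _ (hI.1 hK)) Set.inter_subset_right
    · intro K hK
      exact Or.inl (hI.1 hK)
  · obtain ⟨H, hGH, hH, hc⟩ := exists_superset hG i h h2
    refine ⟨H, ⟨hH.empty, hH.inter, ?_, ?_⟩, hc⟩
    · intro F hF K hK
      exact hH.inter _ (hGH hF) _ hK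
    · intro K hK
      by_cases hne : K = Set.univ
      · left
        rw [hne]
        exact univ_mem hG
      · exact Or.inr (hH.ext K hK hne)

/-- Adding a point multiplies the number of geometries by at least `2 ^ |X|`. -/
lemma num_option : 2 ^ Nat.card X * num X ≤ num (Option X) := by
  classical
  have hch : ∀ (G : {G : Set (Set X) // IsCG G}) (i : Fin (2 ^ Nat.card X)),
      ∃ H0, Good G.1 H0 ∧ H0.ncard = i.val + 1 := fun G i =>
    exists_good G.2 (i.val + 1) (by omega) i.2
  choose H0 h1 h2 using hch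
  have hcard : Nat.card (Fin (2 ^ Nat.card X) × {G : Set (Set X) // IsCG G}) =
      2 ^ Nat.card X * num X := by
    rw [Nat.card_prod, Nat.card_eq_fintype_card, Fintype.card_fin]
    rfl
  rw [← hcard]
  unfold num
  refine Nat.card_le_card_of_injective
    (fun p => ⟨extFam p.2.1 (H0 p.2 p.1), extFam_cg p.2.2 (h1 p.2 p.1)⟩) ?_
  rintro ⟨i, G⟩ ⟨j, G'⟩ h
  simp only [Subtype.mk.injEq] at h
  obtain ⟨e1, e2⟩ := extFam_inj h
  have e3 : G = G' := Subtype.ext e1
  subst e3
  have e4 : i.val + 1 = j.val + 1 := by rw [← h2 G i, ← h2 G j, e2]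
  have e5 : i = j := Fin.ext (by omega)
  rw [e5]

end extend

/-- Many geometries from antichains. -/
lemma num_antichain (m k : ℕ) (hk : 1 ≤ k) : 2 ^ (m.choose k) ≤ num (Option (Fin m)) := by
  classical
  have hcard : Nat.card (Set {s : Finset (Fin m) // s.card = k}) = 2 ^ (m.choose k) := by
    rw [Nat.card_eq_fintype_card, Fintype.card_set, Fintype.card_finset_len, Fintype.card_fin]
  have huniv : IsCG (Set.univ : Set (Set (Fin m))) := by
    refine ⟨trivial, fun _ _ _ _ => trivial, fun F _ hne => ?_⟩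
    have : (Fᶜ).Nonempty := by
      rw [Set.nonempty_compl]
      exact hne
    obtain ⟨x, hx⟩ := this
    exact ⟨x, hx, trivial⟩
  let H0 : Set {s : Finset (Fin m) // s.card = k} → Set (Set (Fin m)) :=
    fun A => {K | K.ncard < k ∨ ∃ s ∈ A, K = (s.1 : Set (Fin m))}
  have hdown : ∀ A (K F : Set (Fin m)), K ∈ H0 A → F ⊆ K → F ∈ H0 A := by
    intro A K F hK hFK
    by_cases he : F = K
    · rw [he]; exact hK
    · left
      have h1 : F.ncard < K.ncard := Set.ncard_lt_ncard (Set.ssubset_iff_subset_ne.2 ⟨hFK, he⟩)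
      rcases hK with hK | ⟨s, -, hs⟩
      · omega
      · have : K.ncard = k := by
          rw [hs, Set.ncard_coe_finset, s.2]
        omega
  have hgood : ∀ A, Good (Set.univ : Set (Set (Fin m))) (H0 A) := by
    intro A
    refine ⟨Or.inl (by rw [Set.ncard_empty]; omega), ?_, ?_, fun K _ => Or.inl trivial⟩
    · intro F hF F' _
      exact hdown A F _ hF Set.inter_subset_left
    · intro F _ K hK
      exact hdown A K _ hK Set.inter_subset_right
  rw [← hcard]
  unfold num
  refine Nat.card_le_card_of_injective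
    (fun A => ⟨extFam Set.univ (H0 A), extFam_cg huniv (hgood A)⟩) ?_
  intro A B h
  simp only [Subtype.mk.injEq] at h
  have h1 : H0 A = H0 B := (extFam_inj h).2
  ext s
  have h2 : ∀ C : Set {s : Finset (Fin m) // s.card = k}, s ∈ C ↔
      (s.1 : Set (Fin m)) ∈ H0 C := by
    intro C
    constructor
    · intro hs
      exact Or.inr ⟨s, hs, rfl⟩
    · rintro (h3 | ⟨t, ht, h3⟩)
      · exfalso
        rw [Set.ncard_coe_finset, s.2] at h3
        omega
      · have : s = t := Subtype.ext (Finset.coe_injective h3)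
        rw [this]
        exact ht
  rw [h2 A, h2 B, h1]

lemma num_le (X : Type) [Finite X] : num X ≤ 2 ^ 2 ^ Nat.card X := by
  classical
  have := Fintype.ofFinite X
  unfold num
  calc Nat.card {G : Set (Set X) // IsCG G} ≤ Nat.card (Set (Set X)) :=
        Nat.card_le_card_of_injective _ Subtype.val_injective
    _ = 2 ^ 2 ^ Nat.card X := by
        rw [Nat.card_eq_fintype_card, Fintype.card_set, Fintype.card_set, Nat.card_eq_fintype_card]

end Pool.Agent.R129.CG
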